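import Pool.Agent.Run7.h743.IN.Fin
import Pool.Agent.Results.MP_f50388_nt.AllTwistsOddDegree

/-!
# The 2-part of the Birch and Swinnerton-Dyer conjecture for all the quadratic twists of `X_0(14)` by
# integers, positive or negative, with prime divisors inert in `ℚ(√2)` and in `ℚ(√-7)`

`E_D` is the quadratic twist by `D` of the modular curve `X_0(14)`, where `D = 1` modulo `4` is
squarefree, positive or negative, and every prime divisor of `D` is inert in `ℚ(√2)` and in `ℚ(√-7)`
(that is, `3` or `5` modulo `8` and not a square modulo `7`).  We prove that `L(E_D, 1) ≠ 0`, that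
`E_D(ℚ)` is finite, that the 2-primary part of the Tate-Shafarevich group is trivial and that its
analytic order is a 2-adic unit, so the 2-part of the Birch and Swinnerton-Dyer formula holds for `E_D`.
The same is proved over every field `K` of odd degree in which the primes dividing `14 D` are inert,
contained in the `q`-th cyclotomic field, `q` a power of a prime, with odd narrow class number (for
example over all the layers of the cyclotomic `ℤ₃`-extension of `ℚ`).

For `D > 0` with all primes `5` modulo `8` this is known (over `ℚ`: Coates, Li, Tian and Zhai; Cai, Li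
and Zhai; over `K`: the starting file `MP_f50388_nt/AllTwistsOddDegree`).  New are the primes `3` modulo
`8` and the negative integers `D`.

The proof.  Let `f` be the even (`D > 0`) or the odd (`D < 0`) modular symbol and `M = |D|`.  The
classical argument expresses the twisted sum of `f` by `M` through the sums for the proper divisors and
the sum of `f(a / M)` over one class of residues `a` modulo the squares.  It needs the term of the
divisor `1`, which is divisible by too high a power of `2` if there is a prime `3` modulo `8`.  Instead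
we use the involution `a ↦ -1 / (14 a)` (Atkin-Lehner), which preserves the classes and `f(a / M)`.
There are no fixed points in suitable classes if there is a prime `5` modulo `8`; if all the primes are
`3` modulo `8`, there is exactly one fixed point in each class, and the parity of `f` at the fixed point
is computed with Dedekind sums: modulo two the even symbol differs by a constant from the Dedekind
symbol of an eta quotient for `Γ_0(14)`, which at the fixed points is `(M² - 1) / 8` modulo two.
-/

set_option autoImplicit false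

open NumberField NumberField.InfinitePlace IsDedekindDomain WeierstrassCurve MeasureTheory Filter
  Topology

namespace Pool.Agent.Results.MP_9c97e9_nt.AllInertTwists

open scoped Classical

open Pool.Agent.TH841.NF.D (Sha)

open Pool.Agent.Y682 (NCl)

/-- The quadratic twist `E_D` of `X_0(14)` (`D = 1` modulo `4`), with its global minimal equation
`y² + x y + y = x³ + ((D - 1)/4) x² + ((9 D² - 1)/2) x - (23 D³ + 1)/4`.  It is isomorphic to
`Y² = X (X² + 13 D X + 128 D²)` by `X = 4 (x - D)`, `Y = 4 (2 y + x + 1)`. -/
def twist (D : ℤ) : WeierstrassCurve ℤ :=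
  ⟨1, (D - 1) / 4, 1, (9 * D ^ 2 - 1) / 2, -((23 * D ^ 3 + 1) / 4)⟩

/-- The curve given by the equation of `W` over the ring `R`. -/
abbrev base (W : WeierstrassCurve ℤ) (R : Type) [CommRing R] : WeierstrassCurve R :=
  W.map (Int.castRingHom R)

/-- The number of the affine points `(x, y)` over the ring `R`. -/
noncomputable def pts (W : WeierstrassCurve ℤ) (R : Type) [CommRing R] : ℕ :=
  Nat.card {P : R × R // (base W R).toAffine.Equation P.1 P.2}

section

variable {K : Type} [Field K] [NumberField K]

/-- `a_v = N v + 1 - #W(k_v)`, the points over the residue field `k_v` counted with the point at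
infinity. -/
noncomputable def a (W : WeierstrassCurve ℤ) (v : HeightOneSpectrum (𝓞 K)) : ℤ :=
  (Ideal.absNorm v.asIdeal : ℤ) - pts W (𝓞 K ⧸ v.asIdeal)

/-- The Euler factor of `L(W/K, s)` at `v` : `(1 - a_v N v^(-s) + N v^(1 - 2 s))⁻¹` if the
discriminant is a unit at `v`, and `(1 - a_v N v^(-s))⁻¹` otherwise. -/
noncomputable def factor (W : WeierstrassCurve ℤ) (s : ℂ) (v : HeightOneSpectrum (𝓞 K)) : ℂ :=
  (1 - (a W v : ℂ) * (Ideal.absNorm v.asIdeal : ℂ) ^ (-s) +
    if ((W.Δ : ℤ) : 𝓞 K) ∈ v.asIdeal then 0 else (Ideal.absNorm v.asIdeal : ℂ) ^ (1 - 2 * s))⁻¹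

/-- The equation is minimal at the finite place `v` of `K`: no change of variables over `K` that
keeps the coefficients integral at `v` decreases the valuation of the discriminant. -/
def MinimalAt (W : WeierstrassCurve ℤ) (v : HeightOneSpectrum (𝓞 K)) : Prop :=
  ∀ C : VariableChange K, v.valuation K (C • base W K).a₁ ≤ 1 →
    v.valuation K (C • base W K).a₂ ≤ 1 → v.valuation K (C • base W K).a₃ ≤ 1 →
    v.valuation K (C • base W K).a₄ ≤ 1 → v.valuation K (C • base W K).a₆ ≤ 1 →
    v.valuation K (C • base W K).Δ ≤ v.valuation K (base W K).Δ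

/-- `E⁰(K_v)`, the group of the points of `W` over the completion `K_v` with nonsingular reduction:
the points `(x, y)` where `x` is not integral, or one of the partial derivatives of
`y² + a₁ x y + a₃ y - x³ - a₂ x² - a₄ x - a₆` is a unit at `(x, y)`, and the point at infinity. -/
noncomputable def nonsing (W : WeierstrassCurve ℤ) (v : HeightOneSpectrum (𝓞 K)) :
    AddSubgroup (base W (v.adicCompletion K)).toAffine.Point :=
  AddSubgroup.closure {P | ∀ x y h, P = Affine.Point.some x y h →
    1 < Valued.v x ∨ Valued.v (W.a₁ * y - (3 * x ^ 2 + 2 * W.a₂ * x + W.a₄)) = 1 ∨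
      Valued.v (2 * y + W.a₁ * x + W.a₃) = 1}

/-- The Tamagawa number `c_v = [E(K_v) : E⁰(K_v)]` of a minimal equation. -/
noncomputable def c (W : WeierstrassCurve ℤ) (v : HeightOneSpectrum (𝓞 K)) : ℕ :=
  (nonsing W v).index

end

section

variable (K : Type) [Field K] [NumberField K]

/-- The product of the Tamagawa numbers. -/
noncomputable def Tam (W : WeierstrassCurve ℤ) : ℕ := ∏ᶠ v : HeightOneSpectrum (𝓞 K), c W v

/-- The 2-primary part of the Tate-Shafarevich group over `K`. -/
noncomputable abbrev Sha2 (W : WeierstrassCurve ℤ) : AddSubgroup (Sha (base W K)) :=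
  AddCommGroup.primaryComponent (Sha (base W K)) 2

/-- The torsion points over `K`. -/
def tors (W : WeierstrassCurve ℤ) : Set (base W K).toAffine.Point := {P | ∃ n : ℕ, 0 < n ∧ n • P = 0}

/-- The rank of the group of the points over `K`. -/
noncomputable def rank (W : WeierstrassCurve ℤ) : ℕ := Module.finrank ℤ (base W K).toAffine.Point

/-- `g` is a basis of the group of the points over `K` modulo torsion. -/
def IsBasis (W : WeierstrassCurve ℤ) {r : ℕ} (g : Fin r → (base W K).toAffine.Point) : Prop :=
  ∀ P : (base W K).toAffine.Point, ∃! n : Fin r → ℤ, P - ∑ i, n i • g i ∈ tors K W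

/-- `h` is the canonical height: `h(P) = lim 4^{-k} h_K(x(2^k P))`, where `h_K` is the logarithmic
height relative to `K`. -/
def IsHeight (W : WeierstrassCurve ℤ) (h : (base W K).toAffine.Point → ℝ) : Prop :=
  ∀ P : (base W K).toAffine.Point,
    Tendsto (fun k : ℕ => Height.logHeight ((2 ^ k : ℕ) • P).xRep / 4 ^ k) atTop (𝓝 (h P))

/-- The regulator, the determinant of `⟨g_i, g_j⟩ = (h(g_i + g_j) - h(g_i) - h(g_j)) / 2`. -/
noncomputable def reg (W : WeierstrassCurve ℤ) (h : (base W K).toAffine.Point → ℝ) {r : ℕ}
    (g : Fin r → (base W K).toAffine.Point) : ℝ :=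
  (Matrix.of fun i j : Fin r => (h (g i + g j) - h (g i) - h (g j)) / 2).det

end

/-- `4 x³ + b₂ x² + 2 b₄ x + b₆ = (2 y + a₁ x + a₃)²`, where `b₂ = a₁² + 4 a₂`,
`b₄ = 2 a₄ + a₁ a₃`, `b₆ = a₃² + 4 a₆`. -/
def cubic (W : WeierstrassCurve ℤ) {R : Type} [CommRing R] (x : R) : R :=
  4 * x ^ 3 + W.b₂ * x ^ 2 + 2 * W.b₄ * x + W.b₆

/-- `∫_{W(ℝ)} |ω|` with `ω = dx / (2 y + a₁ x + a₃)`, as an integral over `x`: two real points lie
over each `x` with `cubic x > 0`. -/
noncomputable def realPeriod (W : WeierstrassCurve ℤ) : ℝ :=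
  2 * ∫ x in {x : ℝ | 0 < cubic W x}, 1 / √(cubic W x)

/-- `2 ∫_{W(ℂ)} |ω ∧ ω̄|`, where `|ω ∧ ω̄| = du dv` in a local parameter `z = u + i v` with
`dz = ω`, as an integral over `x`: two points lie over a general `x`, and `|ω ∧ ω̄|` is the area
element of the plane of `x` divided by `|cubic x|`. -/
noncomputable def complexPeriod (W : WeierstrassCurve ℤ) : ℝ := 2 * (2 * ∫ x : ℂ, 1 / ‖cubic W x‖)

/-- The global period of an equation that is minimal at all finite places. -/
noncomputable def Omega (K : Type) [Field K] [NumberField K] (W : WeierstrassCurve ℤ) : ℝ :=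
  realPeriod W ^ nrRealPlaces K * complexPeriod W ^ nrComplexPlaces K

/-- The `L`-function of `W` over `K` is an entire function `L`, its order at `s = 1` is `n`, and `x` is
the analytic order of the Tate-Shafarevich group, that is
`L*(1) √|Δ_K| (#E(K)_tors)² / (Reg Ω Tam)`, where `L*(1)` is the leading coefficient at `1`: the value
of `#Ш` that is predicted by the conjecture.  (The three numbers in the denominator and the number of
the torsion points are positive.) -/
def IsAnalyticSha (K : Type) [Field K] [NumberField K] (W : WeierstrassCurve ℤ) (n : ℕ) (x : ℂ) :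
    Prop :=
  ∃ (L : ℂ → ℂ) (l : ℂ) (h : (base W K).toAffine.Point → ℝ) (r : ℕ)
    (g : Fin r → (base W K).toAffine.Point), Differentiable ℂ L ∧
    (∀ s : ℂ, 3 / 2 < s.re → HasProd (factor (K := K) W s) (L s)) ∧
    analyticOrderAt L 1 = n ∧ Tendsto (fun s => L s / (s - 1) ^ n) (𝓝[≠] 1) (𝓝 l) ∧
    IsHeight K W h ∧ IsBasis K W g ∧ 0 < reg K W h g ∧ 0 < Omega K W ∧ 0 < Tam K W ∧
    0 < Nat.card (tors K W) ∧
    x = l * ((√|(discr K : ℝ)| : ℝ) : ℂ) * (Nat.card (tors K W) : ℂ) ^ 2 /
      (((reg K W h g * Omega K W * Tam K W : ℝ)) : ℂ)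

/-- The 2-part of the conjecture of Birch and Swinnerton-Dyer for `W` over `K`: the `L`-function is
entire, its order at `s = 1` is the rank, the 2-primary part of the Tate-Shafarevich group is finite,
and the analytic order of the Tate-Shafarevich group is a rational number with the same 2-adic
valuation as the order of that 2-primary part. -/
def TwoPart (K : Type) [Field K] [NumberField K] (W : WeierstrassCurve ℤ) : Prop :=
  ∃ x : ℚ, x ≠ 0 ∧ IsAnalyticSha K W (rank K W) x ∧ Finite (Sha2 K W) ∧
    padicValRat 2 x = padicValNat 2 (Nat.card (Sha2 K W))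

/-- The prime divisors of `D` are inert in `ℚ(√2)` (`3` or `5` modulo `8`) and in `ℚ(√-7)` (not
squares modulo `7`). -/
def InertPrimes (D : ℤ) : Prop := ∀ p : ℕ, p.Prime → (p : ℤ) ∣ D →
  (p % 8 = 3 ∨ p % 8 = 5) ∧ (p % 7 = 3 ∨ p % 7 = 5 ∨ p % 7 = 6)

/-- The conclusion over `K`: the equation is minimal at all the finite places, the `L`-function is
entire and does not vanish at `1`, the rank is zero, the 2-primary part of the Tate-Shafarevich group
is trivial, and its analytic order is a rational number with 2-adic valuation zero.  In particular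
`TwoPart K (twist D)` holds (it is included). -/
def TrivialTwoPart (K : Type) [Field K] [NumberField K] (D : ℤ) : Prop :=
  (∀ v : HeightOneSpectrum (𝓞 K), MinimalAt (twist D) v) ∧ TwoPart K (twist D) ∧
    rank K (twist D) = 0 ∧ Nat.card (Sha2 K (twist D)) = 1 ∧
    ∃ x : ℚ, x ≠ 0 ∧ padicValRat 2 x = 0 ∧ IsAnalyticSha K (twist D) 0 x

/-- The numbers `2` and `7` are inert in `K` and the narrow class number is odd. -/
def OddClass (K : Type) [Field K] [NumberField K] : Prop :=
  (Ideal.span {((2 : ℕ) : 𝓞 K)}).IsPrime ∧ (Ideal.span {((7 : ℕ) : 𝓞 K)}).IsPrime ∧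
    Odd (Nat.card (NCl K))

/-- The prime divisors of `D` are inert in `K`. -/
def InertIn (K : Type) [Field K] [NumberField K] (D : ℤ) : Prop :=
  ∀ p : ℕ, p.Prime → (p : ℤ) ∣ D → (Ideal.span {((p : ℕ) : 𝓞 K)}).IsPrime

/-- **Main theorem.** (1) Let `D = 1` modulo `4` be squarefree, positive or negative, such that the
prime divisors of `D` are inert in `ℚ(√2)` and `ℚ(√-7)`, and let `E_D` be the twist by `D` of
`X_0(14)`.  The equation is minimal at all primes, `L(E_D, 1) ≠ 0`, `E_D(ℚ)` has rank zero, the
2-primary part of the Tate-Shafarevich group is trivial, and the analytic order of the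
Tate-Shafarevich group is a rational number with 2-adic valuation zero.  In particular the 2-part of
the conjecture holds.

(2) Let moreover `q` be a power of a prime, prime to `14 D`, and let `K` be a subfield of odd degree of
the `q`-th cyclotomic field.  Suppose that `q` is a power of three (then `K` is a layer of the
cyclotomic `ℤ₃`-extension of `ℚ`), or that `2` and `7` are inert in `K` and the narrow class number of
`K` is odd; suppose that the prime divisors of `D` are inert in `K`.  Then the same is true over `K`. -/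
theorem result :
    (∀ D : ℤ, Squarefree D → D % 4 = 1 → InertPrimes D → TrivialTwoPart ℚ D) ∧
    ∀ (q : ℕ) [NeZero q], IsPrimePow q → q.Coprime 14 → ∀ (M : Type) [Field M] [NumberField M]
      [IsCyclotomicExtension {q} ℚ M] (K : IntermediateField ℚ M), Odd (Module.finrank ℚ K) →
      (3 ∣ q ∨ OddClass K) → ∀ D : ℤ, Squarefree D → D % 4 = 1 → InertPrimes D → IsCoprime D q →
      InertIn K D → TrivialTwoPart K D := by
  have hone : ∀ (K : Type) [Field K] [NumberField K] (D : ℤ), TwoPart K (twist D) →
      rank K (twist D) = 0 → Nat.card (Sha2 K (twist D)) = 1 →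
      ∃ x : ℚ, x ≠ 0 ∧ padicValRat 2 x = 0 ∧ IsAnalyticSha K (twist D) 0 x := by
    intro K _ _ D hT hr hc
    obtain ⟨x, hx0, hx, -, hv⟩ := hT
    rw [hr] at hx
    rw [hc, padicValNat_one_right] at hv
    exact ⟨x, hx0, by rw [hv]; rfl, hx⟩
  have hQ : ∀ D : ℤ, Squarefree D → D % 4 = 1 → InertPrimes D →
      TwoPart ℚ (twist D) ∧ rank ℚ (twist D) = 0 ∧ Nat.card (Sha2 ℚ (twist D)) = 1 :=
    fun D h1 h2 h3 => Pool.Agent.Run7.h743.IN.twoPart_Q
      Pool.Agent.Results.MP_f50388_nt.AllTwistsOddDegree.parts D h1 h2 h3
  refine ⟨fun D hD hD4 hin => ?_, ?_⟩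
  · obtain ⟨h1, h2, h3⟩ := hQ D hD hD4 hin
    exact ⟨Pool.Agent.Run7.h743.IN.mind_Q
      Pool.Agent.Results.MP_f50388_nt.AllTwistsOddDegree.parts D hD hD4 hin, h1, h2, h3,
      hone ℚ D h1 h2 h3⟩
  · intro q _ hq hco M _ _ _ K hodd hcl D hD hD4 hin hDq hDp
    obtain ⟨h1, h2, h3⟩ := hQ D hD hD4 hin
    have hDp' : ∀ p : ℕ, p.Prime → (p : ℤ) ∣ D → ¬ p ∣ 14 * q ∧
        (Ideal.span {((p : ℕ) : 𝓞 K)}).IsPrime := by
      intro p hp hpD
      refine ⟨fun h => ?_, hDp p hp hpD⟩
      rcases (hp.dvd_mul).1 h with h4 | h4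
      · have h5 := Nat.dvd_gcd (Int.natCast_dvd.1 hpD) h4
        rw [Pool.Agent.Run7.h743.IN.in_coprime hin] at h5
        exact hp.one_lt.ne' (Nat.dvd_one.1 h5)
      · have h5 := hDq.isUnit_of_dvd' hpD (Int.natCast_dvd_natCast.2 h4)
        rw [Int.isUnit_iff] at h5
        have := hp.two_le
        omega
    obtain ⟨k1, -, -, -, k5, ⟨e⟩, -, k8, -⟩ :=
      Pool.Agent.Results.MP_f50388_nt.AllTwistsOddDegree.result q hq hco M K hodd hcl D hD hD4 hDp'
    have hT : TwoPart K (twist D) := k8.2 h1
    have hr : rank K (twist D) = 0 := k5.trans h2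
    have hc : Nat.card (Sha2 K (twist D)) = 1 := (Nat.card_congr e.toEquiv).trans h3
    exact ⟨k1, hT, hr, hc, hone K D hT hr hc⟩

end Pool.Agent.Results.MP_9c97e9_nt.AllInertTwists
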