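import Pool.Agent.Run7.h428.WM
import Pool.Agent.Results.MP_92892c_nt.FullClassTwoPartX49

/-!
# The 2-part of the Birch and Swinnerton-Dyer formula for several curves twisted by `a² + b²`:
# the exact joint law for all pairs `(a, b)` of integers

`E_D` is the quadratic twist by `D` of `X_0(49) : y² + x y = x³ - x² - 2 x - 1`, and
`z_D = #E_D(ℚ)_tors² L(E_D, 1) / (Ω ∏ c_p)` is the order of `Ш(E_D/ℚ)` predicted by the formula. The class
consists of the squarefree `D` with all prime factors `≡ 1 mod 4`. For every `D` of the class the equation is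
minimal, `L(E_D, s)` is entire, `z_D` is integral at all the valuations of `ℂ` above two, and it is a unit at
any given one of them iff `E_D(ℚ)` is finite and `Ш(E_D/ℚ)[2] = 0`, iff the 2-part of the formula holds
in the form `TwoPart D`: `L(E_D, 1) ≠ 0`, `E_D(ℚ)` is finite, `Ш(E_D/ℚ)[2^∞] = 0`, `z_D` and `1 / z_D` are
integral above two.

All pairs `(a, b)` of integers are ordered by `a² + b²`; the pairs `≠ (0, 0)` such that the squarefree part of
`a² + b²` is odd are two thirds of all pairs. The twist by `N ≥ 1` is the twist by the squarefree part of `N`.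

THE JOINT LAW. Let `T` be any finite subset of the class and `V ⊆ T`, and
`c = ∏_{i ≥ 0} (1 - 2^{-(2i+1)}) = 0.4194...`. Exactly the proportion `c^|V| (1 - c)^(|T| - |V|)` of the pairs with odd
squarefree part, and exactly `2/3` of it among ALL pairs of integers, have the property that the 2-part of the
formula holds (in the form `TwoPart`) for the twist by `M (a² + b²)` if `M ∈ V` and does not if `M ∈ T \ V`. In particular
it holds for all `M ∈ T` at the same time with the proportion `c^|T|`, and for at least one with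
`1 - (1 - c)^|T|`.

The statements for a single `D` are from the starting files (`MP_4a9ea6_nt/TwoPartTwistsX49`,
`MP_92892c_nt/FullClassTwoPartX49`). The law of the pairs for `T = {1}` was `TwoPartSumsOfTwoSquares` (helper843, with
helper238; now in `Run7/h843/Kept`); the joint law of the pairs is helper428's (`Run7/h428/WA .. WM`; see
`MP_03e5d0_nt/LatticePointsJointLaw` for the analytic rank).
-/

set_option autoImplicit false

open Filter Topology

namespace Pool.Agent.Results.MP_9c97e9_nt.LatticePointsJointTwoPart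

open Pool.Agent.Results.MP_4a9ea6_nt.TwoPartTwistsX49 (E TwoPart)
open Pool.Agent.Results.MP_92892c_nt.FullClassTwoPartX49 (RankZeroShaTwo FormulaModTwo)

/-- `D` is squarefree and all its prime factors are `≡ 1 mod 4`. -/
def InClass (D : ℕ) : Prop := Squarefree D ∧ ∀ p ∈ D.primeFactors, p % 4 = 1

/-- The norm `a² + b²` of the pair `v = (a, b)` of integers. -/
def nm (v : ℤ × ℤ) : ℕ := v.1.natAbs ^ 2 + v.2.natAbs ^ 2

/-- The class of the pairs: `a² + b²` is not zero and its squarefree part is odd. -/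
def OddSquarefreePart : Set (ℤ × ℤ) := {v | nm v ≠ 0 ∧ Even ((nm v).factorization 2)}

/-- The number of the pairs `v` in `A` with norm at most `X`. -/
noncomputable def num (A : Set (ℤ × ℤ)) (X : ℕ) : ℕ := Nat.card {v : ℤ × ℤ // nm v ≤ X ∧ v ∈ A}

/-- The 2-part of the formula (in the form `TwoPart`) for the twist by `N`, which is the twist by the
squarefree part `D` of `N`. -/
def TwoPartTwist (N : ℕ) : Prop := ∃ D k : ℕ, InClass D ∧ 0 < k ∧ N = D * k ^ 2 ∧ TwoPart D

/-- The constant `0.4194...`. -/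
noncomputable def c : ℝ := ∏' i : ℕ, (1 - (1 / 2 : ℝ) ^ (2 * i + 1))

section proof

open Run7.h428.MixG Run7.h428.WP Run7.h428.WM
open Pool.Agent.Y698.SG (n4)
open Pool.Agent.R413.SQ (Gd)
open Pool.Agent.Results.MP_92892c_nt.FullClassTwoPartX49 (modTwo two_sel two_gd)

theorem cls_eq : OddSquarefreePart = Cls := by
  ext v
  unfold OddSquarefreePart Cls
  rw [Set.mem_ofPred_eq, Set.mem_ofPred_eq, Run7.h238.Pairs.mem_oddP, Nat.not_odd_iff_even]
  exact Iff.rfl

theorem good_eq : TwoPartTwist = SqP TwoPart := rfl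

theorem good_sq {D : ℕ} (hD : InClass D) (k : ℕ) (hk : 0 < k) :
    TwoPartTwist (D * k ^ 2) ↔ TwoPart D := by
  rw [good_eq, sqP_sq hD hk]

theorem decomp {v : ℤ × ℤ} (hv : v ∈ OddSquarefreePart) {M : ℕ} (hM : InClass M) :
    ∃ D k : ℕ, InClass D ∧ 0 < k ∧ M * nm v = D * k ^ 2 := by
  rw [cls_eq] at hv
  obtain ⟨k, hk, h⟩ := two hv hM
  exact ⟨_, k, (Run7.h428.Inst.adm_of_mask (Run7.h428.Inst.am_symm (cls_am hv)
    (Run7.h428.Inst.am_pf hM))).1, hk, h⟩

theorem num_cls_inter' (A : Set (ℤ × ℤ)) (X : ℕ) :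
    (num (OddSquarefreePart ∩ A) X : ℝ) = cn (Run7.h238.Pairs.CX X) A := by
  rw [cls_eq]
  exact Run7.h428.WM.num_cls_inter A X

theorem num_cls' (X : ℕ) : num OddSquarefreePart X = (Run7.h238.Pairs.CX X).card := by
  rw [cls_eq]
  exact Run7.h428.WM.num_cls X

theorem num_univ' (X : ℕ) : num Set.univ X = (Run7.h238.Pairs.Bx X).card :=
  Run7.h428.WM.num_univ X

theorem law {T V : Finset ℕ} (hT : ∀ M ∈ T, InClass M) (hV : V ⊆ T) :
    Tendsto (fun X : ℕ =>
        (num (OddSquarefreePart ∩ {v | ∀ M ∈ T, (TwoPartTwist (M * nm v) ↔ M ∈ V)}) X : ℝ) /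
          (num OddSquarefreePart X : ℝ)) atTop
        (𝓝 (c ^ V.card * (1 - c) ^ (T.card - V.card))) ∧
      Tendsto (fun X : ℕ =>
        (num (OddSquarefreePart ∩ {v | ∀ M ∈ T, (TwoPartTwist (M * nm v) ↔ M ∈ V)}) X : ℝ) /
          (num Set.univ X : ℝ)) atTop
        (𝓝 (2 / 3 * (c ^ V.card * (1 - c) ^ (T.card - V.card)))) := by
  have hcc : Pool.Agent.Y703.CQ.c2 = c := rfl
  have h := Run7.h428.WM.joint (Q := TwoPart) (fun D hD => two_gd hD) hT hV
  rw [hcc] at h
  refine ⟨?_, ?_⟩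
  · simp only [num_cls_inter', num_cls']
    exact h
  · simp only [num_cls_inter', num_univ']
    exact Run7.h428.WM.to_all h

theorem law_all {T : Finset ℕ} (hT : ∀ M ∈ T, InClass M) :
    Tendsto (fun X : ℕ =>
        (num (OddSquarefreePart ∩ {v | ∀ M ∈ T, TwoPartTwist (M * nm v)}) X : ℝ) /
          (num Set.univ X : ℝ)) atTop (𝓝 (2 / 3 * c ^ T.card)) := by
  have h := (law hT (Finset.Subset.refl T)).2
  rw [Nat.sub_self, pow_zero, mul_one] at h
  have e : {v : ℤ × ℤ | ∀ M ∈ T, (TwoPartTwist (M * nm v) ↔ M ∈ T)} =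
      {v | ∀ M ∈ T, TwoPartTwist (M * nm v)} := by
    ext v
    exact forall_congr' fun M => forall_congr' fun hM => by
      constructor
      · exact fun h => h.2 hM
      · exact fun h => ⟨fun _ => hM, fun _ => h⟩
  rw [e] at h
  exact h

theorem split_num (X : ℕ) (P : ℤ × ℤ → Prop) :
    (num (OddSquarefreePart ∩ {v | P v}) X : ℝ) + (num (OddSquarefreePart ∩ {v | ¬ P v}) X : ℝ) =
      (num OddSquarefreePart X : ℝ) := by
  classical
  rw [num_cls_inter', num_cls_inter', num_cls']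
  unfold cn
  have h := Finset.card_filter_add_card_filter_not (s := Run7.h238.Pairs.CX X) (fun v => P v)
  have h' : (((Run7.h238.Pairs.CX X).filter (fun v => P v)).card : ℝ) +
      (((Run7.h238.Pairs.CX X).filter fun v => ¬ P v).card : ℝ) =
      ((Run7.h238.Pairs.CX X).card : ℝ) := by exact_mod_cast h
  refine Eq.trans ?_ h'
  congr 3
  ext v
  simp only [Finset.mem_filter, Set.mem_ofPred_eq]

theorem law_some {T : Finset ℕ} (hT : ∀ M ∈ T, InClass M) :
    Tendsto (fun X : ℕ =>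
        (num (OddSquarefreePart ∩ {v | ∃ M ∈ T, TwoPartTwist (M * nm v)}) X : ℝ) /
          (num Set.univ X : ℝ)) atTop (𝓝 (2 / 3 * (1 - (1 - c) ^ T.card))) := by
  have h := (law hT (Finset.empty_subset T)).2
  rw [Finset.card_empty, pow_zero, one_mul, Nat.sub_zero] at h
  have e : {v : ℤ × ℤ | ∀ M ∈ T, (TwoPartTwist (M * nm v) ↔ M ∈ (∅ : Finset ℕ))} =
      {v | ¬ ∃ M ∈ T, TwoPartTwist (M * nm v)} := by
    ext v
    constructor
    · rintro h ⟨M, hM, h1⟩
      exact absurd ((h M hM).1 h1) (Finset.notMem_empty M)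
    · intro h M hM
      exact ⟨fun h1 => absurd ⟨M, hM, h1⟩ h, fun h1 => absurd h1 (Finset.notMem_empty M)⟩
  rw [e] at h
  have h0 := (law (T := ∅) (V := ∅) (fun M hM => absurd hM (Finset.notMem_empty M))
    (Finset.Subset.refl _)).2
  rw [Finset.card_empty, pow_zero, one_mul, Nat.sub_self, pow_zero, mul_one] at h0
  have e0 : {v : ℤ × ℤ | ∀ M ∈ (∅ : Finset ℕ), (TwoPartTwist (M * nm v) ↔ M ∈ (∅ : Finset ℕ))} =
      Set.univ := by
    ext v
    simp
  rw [e0, Set.inter_univ] at h0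
  have h1 := h0.sub h
  have e3 : (2 / 3 : ℝ) - 2 / 3 * (1 - c) ^ T.card = 2 / 3 * (1 - (1 - c) ^ T.card) := by ring
  rw [e3] at h1
  refine h1.congr fun X => ?_
  have h2 := split_num X (fun v => ∃ M ∈ T, TwoPartTwist (M * nm v))
  rw [← sub_div]
  congr 1
  linarith

end proof

/-- **The joint law of the 2-part of the formula for all pairs of integers.** -/
theorem result :
    (∀ D : ℕ, InClass D → FormulaModTwo D ∧ (TwoPart D ↔ RankZeroShaTwo D)) ∧
    (∀ v ∈ OddSquarefreePart, ∀ M : ℕ, InClass M →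
      ∃ D k : ℕ, InClass D ∧ 0 < k ∧ M * nm v = D * k ^ 2) ∧
    (∀ D k : ℕ, InClass D → 0 < k → (TwoPartTwist (D * k ^ 2) ↔ TwoPart D)) ∧
    (∀ T V : Finset ℕ, (∀ M ∈ T, InClass M) → V ⊆ T →
      Tendsto (fun X : ℕ =>
        (num (OddSquarefreePart ∩ {v | ∀ M ∈ T, (TwoPartTwist (M * nm v) ↔ M ∈ V)}) X : ℝ) /
          (num OddSquarefreePart X : ℝ)) atTop
        (𝓝 (c ^ V.card * (1 - c) ^ (T.card - V.card))) ∧
      Tendsto (fun X : ℕ =>
        (num (OddSquarefreePart ∩ {v | ∀ M ∈ T, (TwoPartTwist (M * nm v) ↔ M ∈ V)}) X : ℝ) /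
          (num Set.univ X : ℝ)) atTop
        (𝓝 (2 / 3 * (c ^ V.card * (1 - c) ^ (T.card - V.card))))) ∧
    (∀ T : Finset ℕ, (∀ M ∈ T, InClass M) →
      Tendsto (fun X : ℕ =>
        (num (OddSquarefreePart ∩ {v | ∀ M ∈ T, TwoPartTwist (M * nm v)}) X : ℝ) /
          (num Set.univ X : ℝ)) atTop (𝓝 (2 / 3 * c ^ T.card)) ∧
      Tendsto (fun X : ℕ =>
        (num (OddSquarefreePart ∩ {v | ∃ M ∈ T, TwoPartTwist (M * nm v)}) X : ℝ) /
          (num Set.univ X : ℝ)) atTop (𝓝 (2 / 3 * (1 - (1 - c) ^ T.card)))) ∧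
    0.4194 < c ∧ c < 0.4195 := by
  have hc1 : 0.4194 < c := Pool.Agent.Y948.CQ.t_C2.2.2.2.1
  have hc2 : c < 0.4195 := Pool.Agent.Y948.CQ.t_C2.2.2.2.2
  exact ⟨fun D hD => ⟨Pool.Agent.Results.MP_92892c_nt.FullClassTwoPartX49.modTwo hD,
    Pool.Agent.Results.MP_92892c_nt.FullClassTwoPartX49.two_sel hD⟩, fun v hv M hM => decomp hv hM,
    fun D k hD hk => good_sq hD k hk, fun T V hT hV => law hT hV,
    fun T hT => ⟨law_all hT, law_some hT⟩, hc1, hc2⟩

end Pool.Agent.Results.MP_9c97e9_nt.LatticePointsJointTwoPart
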