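import Pool.Agent.Run7.h555.P21.Th
import Pool.Agent.Run7.h89.P21.Cen
import Pool.Agent.Run7.h89.P21.Tam
import Pool.Agent.Run7.h209.P21.Per6
import Pool.Agent.Run7.h424.M21.Fin
import Pool.Agent.Run7.h289.D18.Sc
import Pool.Agent.Run7.h843.G3
import Pool.Agent.N873.F15.Dn

/-!
# The leading-term formula for the twists of `X_0(21)`: integral squares and the 2-part, exact proportion

For `n` squarefree, `n ≡ 19`, `31` or `55` modulo `84`, let `E_n` be the quadratic twist by `-n` of the curve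
`X_0(21)` (no complex multiplication), isomorphic to `y² = x (x + 9 n) (x - 7 n)`, let `L(E_n, s)` be its
L-function with all its Euler factors, and let `z = #E_n(ℚ)_tors² L(E_n, 1) / (Ω ∏ c_p)`, which is zero or
the order of `Ш(E_n/ℚ)` according to the conjecture. There is no condition on the number or on the type
of the prime divisors of `n`, and no hypothesis on the rank or on `Ш`:
* the equation of `E_n` is minimal, `#E_n(ℚ)_tors = 4`, `c_3 = c_7 = 2`, `c_p = 4` for `p ∣ n`, all the other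
  Tamagawa numbers are `1`, and `L(E_n, s)` is entire;
* `z = y²` for an integer `y`: the predicted order of `Ш` is the square of an integer, for ALL these `n`;
* `y` is odd iff `E_n(ℚ)` is finite and `Ш(E_n/ℚ)` has no element of order two, iff `E_n(ℚ)` is finite
  and the 2-primary part of `Ш(E_n/ℚ)` is zero, iff there is no factorization `n = b c`, `b, c > 1`, with
  `b` a square modulo every prime divisor of `c` and `c` a square modulo every prime divisor of `b`;
* in this case `L(E_n, 1) ≠ 0`, both groups are as predicted and `z` is the square of an odd integer: the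
  2-part of the formula;
* this happens for exactly the proportion `∏_{i ≥ 1} (1 - 2^{-i}) = 0.2888...` of these `n`, which are a
  positive proportion of all the integers.
-/

set_option autoImplicit false

open NumberField IsDedekindDomain WeierstrassCurve MeasureTheory Filter Topology

namespace Pool.Agent.Results.MP_9c97e9_nt.TwistsX21TwoPart

open Pool.Agent.TH841.NF.D (Sha)
open Pool.Agent.TH841.SH.D (Pt)

/-- `n` is squarefree and `n ≡ 19`, `31` or `55` modulo `84` -/
def Class (n : ℕ) : Prop := Squarefree n ∧ (n % 84 = 19 ∨ n % 84 = 31 ∨ n % 84 = 55)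

/-- The curve `y² + x y = x³ - ((n + 1)/4) x² - 4 n² x + n³` (for `n` in the class the coefficients are
integers), the quadratic twist by `-n` of `X_0(21)`. -/
def C (n : ℕ) : WeierstrassCurve ℤ := ⟨1, -((n + 1) / 4), 0, -(4 * n ^ 2), n ^ 3⟩

/-- The curve over `ℚ`. -/
abbrev E (n : ℕ) : WeierstrassCurve ℚ := (C n).map (Int.castRingHom ℚ)

/-- The equation is minimal at the place `v`: no change of variables over `ℚ` that keeps the
coefficients integral at `v` decreases the order of the discriminant. -/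
def MinimalAt (W : WeierstrassCurve ℚ) (v : HeightOneSpectrum (𝓞 ℚ)) : Prop :=
  ∀ C : VariableChange ℚ, v.valuation ℚ (C • W).a₁ ≤ 1 → v.valuation ℚ (C • W).a₂ ≤ 1 →
    v.valuation ℚ (C • W).a₃ ≤ 1 → v.valuation ℚ (C • W).a₄ ≤ 1 → v.valuation ℚ (C • W).a₆ ≤ 1 →
    v.valuation ℚ (C • W).Δ ≤ v.valuation ℚ W.Δ

/-- `W⁰(ℚ_v)`, the group of the points of `W` over the completion `ℚ_v` with nonsingular reduction:
the point at infinity and the points `(x, y)` where `x` is not integral, or one of the partial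
derivatives of `y² + a₁ x y + a₃ y - x³ - a₂ x² - a₄ x - a₆` is a unit at `(x, y)`.
Here `Pt W ℚ_v` is the group of the points of `W` over `ℚ_v`. -/
noncomputable def nonsing (W : WeierstrassCurve ℚ) (v : HeightOneSpectrum (𝓞 ℚ)) :
    AddSubgroup (Pt W (v.adicCompletion ℚ)) :=
  AddSubgroup.closure {P | ∀ x y h, P = Affine.Point.some x y h →
    1 < Valued.v x ∨
    Valued.v ((W.baseChange (v.adicCompletion ℚ)).a₁ * y -
      (3 * x ^ 2 + 2 * (W.baseChange (v.adicCompletion ℚ)).a₂ * x +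
        (W.baseChange (v.adicCompletion ℚ)).a₄)) = 1 ∨
    Valued.v (2 * y + (W.baseChange (v.adicCompletion ℚ)).a₁ * x +
      (W.baseChange (v.adicCompletion ℚ)).a₃) = 1}

/-- The Tamagawa number `c_v = [W(ℚ_v) : W⁰(ℚ_v)]` of a minimal equation. -/
noncomputable def c (W : WeierstrassCurve ℚ) (v : HeightOneSpectrum (𝓞 ℚ)) : ℕ :=
  (nonsing W v).index

/-- The product of the Tamagawa numbers. -/
noncomputable def Tam (W : WeierstrassCurve ℚ) : ℕ := ∏ᶠ v : HeightOneSpectrum (𝓞 ℚ), c W v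

/-- `4 x³ + b₂ x² + 2 b₄ x + b₆ = (2 y + a₁ x + a₃)²`. -/
def cubic (W : WeierstrassCurve ℤ) (x : ℝ) : ℝ := 4 * x ^ 3 + W.b₂ * x ^ 2 + 2 * W.b₄ * x + W.b₆

/-- `Ω = ∫_{W(ℝ)} |ω|` with `ω = dx / (2 y + a₁ x + a₃)`, as an integral over `x`: two real points lie
over each `x` with `cubic x > 0`. -/
noncomputable def Omega (W : WeierstrassCurve ℤ) : ℝ :=
  2 * ∫ x in {x : ℝ | 0 < cubic W x}, 1 / √(cubic W x)

open Classical in
/-- The order of the torsion subgroup of `W(K)`. -/
noncomputable def torsOrder {K : Type} [Field K] (W : WeierstrassCurve K) : ℕ :=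
  Nat.card (AddCommGroup.torsion W.toAffine.Point)

/-- `a_p = p + 1 - #E_n(𝔽_p)`, where the point at infinity and the singular point are counted: `p` minus
the number of the affine points modulo `p`. -/
noncomputable def tr (n p : ℕ) : ℤ :=
  (p : ℤ) - Nat.card {P : ZMod p × ZMod p //
    ((C n).map (Int.castRingHom (ZMod p))).toAffine.Equation P.1 P.2}

/-- `F` is the L-function of `E_n`: it is entire, and it is the complete Euler product for
`Re s > 3/2`; the primes of bad reduction are the prime divisors of `21 n`. -/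
def IsLFun (n : ℕ) (F : ℂ → ℂ) : Prop :=
  Differentiable ℂ F ∧ ∀ s : ℂ, (3 : ℝ) / 2 < s.re →
    HasProd (fun p : ℕ => if p.Prime then (1 - (tr n p : ℂ) * (p : ℂ) ^ (-s) +
      if p ∣ 21 * n then 0 else (p : ℂ) ^ (1 - 2 * s))⁻¹ else 1) (F s)

/-- The order of the Tate-Shafarevich group predicted by the formula, for the value `l` of the
L-function of `E_n` at `s = 1`: `#E_n(ℚ)_tors² l / (Ω ∏ c_v)`. -/
noncomputable def anOrder (n : ℕ) (l : ℂ) : ℂ :=
  l * (torsOrder (E n) : ℂ) ^ 2 / ((Omega (C n) : ℝ) * (Tam (E n) : ℂ))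

/-- There is no factorization `n = b c`, `b, c > 1`, such that `b` is a square modulo every prime divisor
of `c` and `c` is a square modulo every prime divisor of `b`. -/
def Criterion (n : ℕ) : Prop := ∀ b c : ℕ, b * c = n →
  (∀ p : ℕ, p.Prime → p ∣ c → IsSquare (b : ZMod p)) →
  (∀ p : ℕ, p.Prime → p ∣ b → IsSquare (c : ZMod p)) → b = 1 ∨ c = 1

/-- The 2-part of the conjecture, in the case that `z` is a unit at two: the L-function `F` of `E_n` is
entire with `F 1 ≠ 0`, `E_n(ℚ)` is finite, the 2-primary part of `Ш` is zero, and the predicted order of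
`Ш` is the square of an odd integer. -/
def TwoPart (n : ℕ) : Prop :=
  Finite (E n).toAffine.Point ∧ (∀ (k : ℕ) (x : Sha (E n)), 2 ^ k • x = 0 → x = 0) ∧
    ∃ F : ℂ → ℂ, IsLFun n F ∧ F 1 ≠ 0 ∧
      ∃ y : ℤ, Odd y ∧ anOrder n (F 1) = (y : ℂ) ^ 2

/-- the number of the `n ≤ X` in the class with the property `Q` -/
noncomputable def num (Q : ℕ → Prop) (X : ℕ) : ℕ := Nat.card {n : ℕ // n ≤ X ∧ Class n ∧ Q n}

/-- the constant `0.2888...` -/
noncomputable def eta : ℝ := ∏' i : ℕ, (1 - (1 / 2 : ℝ) ^ (i + 1))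

section proof

open Pool.Agent.N969.P15 (Qc)
open _root_.Run7.h89.P21 (CI EI EJ)
open Pool.Agent.Y700 (VR)

theorem C_eq {n : ℕ} (h : n % 4 = 3) : C n = CI n := by
  have c1 := Run7.h89.P21.coeffs_n h
  have k1 : -(((n : ℤ) + 1) / 4) = (-(n : ℤ) - 1) / 4 := by omega
  have k2 : -(4 * (n : ℤ) ^ 2) = -(4 * (-(n : ℤ)) ^ 2) := by rw [neg_sq]
  have k3 : (n : ℤ) ^ 3 = -((-(n : ℤ)) ^ 3) := by ring
  unfold C CI Run7.h89.P21.WT
  rw [k1, k2, k3]

theorem Class.mod {n : ℕ} (h : Class n) : n % 4 = 3 := by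
  have := h.2
  omega

theorem E_eq {n : ℕ} (h : Class n) : E n = EI n := by
  show (C n).map (Int.castRingHom ℚ) = (CI n).map (Int.castRingHom ℚ)
  rw [C_eq h.mod]

theorem crit_iff {n : ℕ} (h : Class n) : Criterion n ↔ Qc n := by
  have key : ∀ b c : ℕ, b * c = n → ((∀ p : ℕ, p.Prime → p ∣ c → IsSquare (b : ZMod p)) ↔
      ∀ p ∈ c.primeFactors, jacobiSym b p = 1) := by
    intro b c hbc
    have hc0 : c ≠ 0 := by
      rintro rfl
      rw [mul_zero] at hbc
      exact h.1.ne_zero hbc.symm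
    have hcop : b.Coprime c := Nat.coprime_of_squarefree_mul (by rw [hbc]; exact h.1)
    constructor
    · intro h1 p hp
      have hpp := Nat.prime_of_mem_primeFactors hp
      have hpc := Nat.dvd_of_mem_primeFactors hp
      have : Fact p.Prime := ⟨hpp⟩
      have hb0 : ((b : ℤ) : ZMod p) ≠ 0 := by
        intro h0
        rw [ZMod.intCast_zmod_eq_zero_iff_dvd] at h0
        have h2 : p ∣ b := by exact_mod_cast h0
        exact hpp.one_lt.ne' (Nat.dvd_one.1 (hcop ▸ Nat.dvd_gcd h2 hpc))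
      rw [← jacobiSym.legendreSym.to_jacobiSym, legendreSym.eq_one_iff p hb0]
      exact_mod_cast h1 p hpp hpc
    · intro h1 p hpp hpc
      have : Fact p.Prime := ⟨hpp⟩
      have h2 := h1 p (Nat.mem_primeFactors.2 ⟨hpp, hpc, hc0⟩)
      have hb0 : ((b : ℤ) : ZMod p) ≠ 0 := by
        intro h0
        rw [ZMod.intCast_zmod_eq_zero_iff_dvd] at h0
        have h2 : p ∣ b := by exact_mod_cast h0
        exact hpp.one_lt.ne' (Nat.dvd_one.1 (hcop ▸ Nat.dvd_gcd h2 hpc))
      rw [← jacobiSym.legendreSym.to_jacobiSym, legendreSym.eq_one_iff p hb0] at h2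
      exact_mod_cast h2
  unfold Criterion Qc
  refine forall_congr' fun b => forall_congr' fun c => forall_congr' fun hbc => ?_
  rw [key b c hbc, key c b (by rw [mul_comm]; exact hbc)]

theorem sha_all {n : ℕ} (h : ∀ x : Sha (E n), x + x = 0 → x = 0) (k : ℕ) (x : Sha (E n))
    (hx : 2 ^ k • x = 0) : x = 0 := by
  induction k with
  | zero => rwa [pow_zero, one_smul] at hx
  | succ k ih =>
    apply ih
    apply h
    rw [← two_nsmul, ← mul_smul, ← pow_succ']
    exact hx

open Classical in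
/-- points and Tate-Shafarevich groups of isomorphic curves -/
theorem iso {V W : WeierstrassCurve ℚ} {u r s t : ℚ} (h : VR V W u r s t) (hD : W.Δ ≠ 0) :
    (Finite W.toAffine.Point ↔ Finite V.toAffine.Point) ∧
    ∀ k : ℕ, ((∀ x : Sha W, k • x = 0 → x = 0) ↔ (∀ x : Sha V, k • x = 0 → x = 0)) := by
  have e := h.equiv hD
  have f := (Pool.Agent.Y655.XT.isoVR h hD).sha
  refine ⟨⟨fun _ => Finite.of_equiv _ e.toEquiv, fun _ => Finite.of_equiv _ e.symm.toEquiv⟩, ?_⟩
  intro k
  constructor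
  · intro h1 x hx
    have h2 := h1 (f.symm x) (by rw [← map_nsmul, hx, map_zero])
    rwa [AddEquiv.map_eq_zero_iff] at h2
  · intro h1 x hx
    have h2 := h1 (f x) (by rw [← map_nsmul, hx, map_zero])
    rwa [AddEquiv.map_eq_zero_iff] at h2

theorem desc {n : ℕ} (h : Class n) :
    (Finite (E n).toAffine.Point ∧ ∀ (k : ℕ) (x : Sha (E n)), 2 ^ k • x = 0 → x = 0) ↔
      Criterion n := by
  rw [crit_iff h]
  have h1 := Run7.h289.D18.iff21 h.1 h.2 (W := ⟨0, ((-25 * n : ℤ) : ℚ), 0, ((144 * n ^ 2 : ℤ) : ℚ), 0⟩) rfl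
  rw [← h1]
  obtain ⟨i1, i2⟩ := Run7.h424.M21.s_iso n h.mod
  have hn0 : (n : ℚ) ≠ 0 := by exact_mod_cast h.1.ne_zero
  have hv : VR (⟨0, ((-25 * n : ℤ) : ℚ), 0, ((144 * n ^ 2 : ℤ) : ℚ), 0⟩ : WeierstrassCurve ℚ) (EJ n) 1
      (9 * n) 0 0 := by
    refine ⟨one_ne_zero, ?_, ?_, ?_, ?_, ?_⟩ <;> push_cast <;> ring
  have hD : (EJ n).Δ ≠ 0 := by
    have e : (EJ n).Δ = 16 ^ 2 * 63 ^ 2 * (n : ℚ) ^ 6 * 16 := by
      simp only [WeierstrassCurve.Δ, WeierstrassCurve.b₂, WeierstrassCurve.b₄,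
        WeierstrassCurve.b₆, WeierstrassCurve.b₈]
      ring
    rw [e]
    positivity
  obtain ⟨j1, j2⟩ := iso hv hD
  rw [E_eq h, i1, j1]
  refine and_congr_right fun _ => ?_
  exact forall_congr' fun k => (i2 (2 ^ k)).trans (j2 (2 ^ k))

theorem value {n : ℕ} (h : Class n) : ∃ F : ℂ → ℂ, IsLFun n F ∧
    ∃ y : ℤ, anOrder n (F 1) = (y : ℂ) ^ 2 ∧ (Odd y ↔ Criterion n) := by
  obtain ⟨L, Op, Om, hOp, hOm, g2, g3, hL⟩ := Run7.h209.P21.m_lat
  obtain ⟨F, hF, hprod, y', hcc, hodd, hval⟩ := Run7.h89.P21.center hOm g2 g3 hL (n := n) h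
  obtain ⟨y, rfl⟩ : ∃ y : ℤ, y' = 3 * y := by
    have h3 : (3 : ℤ) ∣ 2 ^ (n.primeFactors.card + 1) * y' := by
      rw [← hcc]
      exact Run7.h555.P21.three_dvd_cc (by have := h.2; omega)
    rcases (Int.prime_three.dvd_mul).1 h3 with h4 | h4
    · exact absurd (Int.prime_three.dvd_of_dvd_pow h4) (by decide)
    · exact h4
  have hC := C_eq h.mod
  have hE := E_eq h
  have hper := Run7.h209.P21.s_per L Op Om hOp hOm g2 g3 hL n h.mod
  have htor : torsOrder (E n) = 4 := by
    rw [hE]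
    exact Run7.h424.M21.s_tor n h
  have htam : Tam (E n) = 4 * 4 ^ n.primeFactors.card := by
    rw [hE]
    exact Run7.h89.P21.tam_eq n h
  refine ⟨F, ⟨hF, ?_⟩, y, ?_, ?_⟩
  · intro s hs
    have h2 := hprod s hs
    unfold Run7.h89.P21.eul at h2
    unfold tr
    rw [hC]
    exact h2
  · have hn0 : (0 : ℝ) < n := by exact_mod_cast Nat.pos_of_ne_zero h.1.ne_zero
    have hs : 0 < √(n : ℝ) := Real.sqrt_pos.2 hn0
    have hs0 : ((√(n : ℝ) : ℝ) : ℂ) ≠ 0 := by exact_mod_cast hs.ne'
    have hOm0 : (Om : ℂ) ≠ 0 := by exact_mod_cast hOm.ne'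
    have hOmega : Omega (C n) * √(n : ℝ) = 2 * Om := by
      rw [hC]
      exact hper
    have hOC : ((Omega (C n) : ℝ) : ℂ) * ((√(n : ℝ) : ℝ) : ℂ) = 2 * Om := by
      exact_mod_cast hOmega
    have hO0 : ((Omega (C n) : ℝ) : ℂ) ≠ 0 := by
      intro h0
      rw [h0, zero_mul] at hOC
      exact mul_ne_zero two_ne_zero hOm0 hOC.symm
    unfold anOrder
    rw [htor, htam]
    have h4 : (4 : ℂ) ^ n.primeFactors.card ≠ 0 := pow_ne_zero _ (by norm_num)
    have e4 : (4 : ℂ) ^ n.primeFactors.card = ((2 : ℂ) ^ n.primeFactors.card) ^ 2 := by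
      rw [← pow_mul, mul_comm, pow_mul]
      norm_num
    push_cast at hval ⊢
    rw [div_eq_iff (mul_ne_zero hO0 (mul_ne_zero (by norm_num) h4))]
    apply mul_right_cancel₀ hs0
    rw [e4]
    linear_combination (8 / 9 : ℂ) * hval - ((y : ℂ) ^ 2 * 4 * (2 ^ n.primeFactors.card) ^ 2) * hOC
  · rw [crit_iff h, ← hodd, Int.odd_mul]
    exact ⟨fun h => ⟨by decide, h⟩, fun h => h.2⟩

open Classical in
theorem num_eq {Q Q' : ℕ → Prop} (h : ∀ n, Class n → (Q n ↔ Q' n)) (X : ℕ) :
    num Q X = ((Finset.Icc 1 X).filter fun n => Squarefree n ∧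
      (n % 84 = 19 ∨ n % 84 = 31 ∨ n % 84 = 55) ∧ Q' n).card := by
  unfold num
  refine Nat.subtype_card _ fun n => ?_
  rw [Finset.mem_filter, Finset.mem_Icc]
  constructor
  · rintro ⟨⟨-, h2⟩, h3, h4, h5⟩
    have hc : Class n := ⟨h3, h4⟩
    exact ⟨h2, hc, (h n hc).2 h5⟩
  · rintro ⟨h2, hc, h5⟩
    exact ⟨⟨Nat.one_le_iff_ne_zero.2 hc.1.ne_zero, h2⟩, hc.1, hc.2, (h n hc).1 h5⟩

open Pool.Agent.N873.F15.Dn (sf ep sf_dens)

theorem ep84 : ep 84 = 32 / 49 := by
  unfold ep
  have : (84 : ℕ).primeFactors = {2, 3, 7} := by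
    have e : (84 : ℕ) = 2 ^ 2 * (3 * 7) := by norm_num
    rw [e, Nat.primeFactors_mul (by norm_num) (by norm_num), Nat.primeFactors_mul (by norm_num)
      (by norm_num), Nat.primeFactors_prime_pow (by norm_num) Nat.prime_two,
      Nat.Prime.primeFactors Nat.prime_three, Nat.Prime.primeFactors (by norm_num)]
    rfl
  rw [this, Finset.prod_insert (by decide), Finset.prod_insert (by decide), Finset.prod_singleton]
  norm_num

open Classical in
theorem all_eq (X : ℕ) : num (fun _ => True) X = sf 84 19 X + sf 84 31 X + sf 84 55 X := by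
  rw [num_eq (Q := fun _ => True) (Q' := fun _ => True) (fun _ _ => Iff.rfl) X]
  unfold sf
  rw [← Finset.card_union_of_disjoint, ← Finset.card_union_of_disjoint]
  · congr 1
    ext n
    simp only [Finset.mem_filter, Finset.mem_union, Finset.mem_Icc, and_true]
    tauto
  · rw [Finset.disjoint_left]
    intro n h1 h2
    simp only [Finset.mem_filter, Finset.mem_union] at h1 h2
    omega
  · rw [Finset.disjoint_left]
    intro n h1 h2
    simp only [Finset.mem_filter] at h1 h2
    omega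

theorem lim_all : Tendsto (fun X : ℕ => (num (fun _ => True) X : ℝ) / X) atTop
    (𝓝 (21 / (64 * Real.pi ^ 2))) := by
  have h1 := sf_dens (N := 84) (r := 19) (by norm_num) (by norm_num) (by norm_num)
  have h2 := sf_dens (N := 84) (r := 31) (by norm_num) (by norm_num) (by norm_num)
  have h3 := sf_dens (N := 84) (r := 55) (by norm_num) (by norm_num) (by norm_num)
  have h4 := (h1.add h2).add h3
  have e : (6 / Real.pi ^ 2 / ep 84 / (84 : ℕ) + 6 / Real.pi ^ 2 / ep 84 / (84 : ℕ) +
      6 / Real.pi ^ 2 / ep 84 / (84 : ℕ) : ℝ) = 21 / (64 * Real.pi ^ 2) := by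
    rw [ep84]
    have : Real.pi ≠ 0 := Real.pi_ne_zero
    push_cast
    field_simp
    norm_num
  rw [e] at h4
  refine h4.congr fun X => ?_
  rw [all_eq]
  push_cast
  ring

open Classical in
theorem lim_Qc : Tendsto (fun X : ℕ => (num Qc X : ℝ) / (num (fun _ => True) X : ℝ)) atTop
    (𝓝 eta) := by
  have h := Run7.h843.G.dens_Qc 168 (by norm_num) (by norm_num)
    (fun n => n % 84 = 19 ∨ n % 84 = 31 ∨ n % 84 = 55) (fun n => by
      have : n % 168 % 84 = n % 84 := Nat.mod_mod_of_dvd n (by norm_num)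
      rw [this]) (fun n hn => by omega) 19 (by norm_num) (by norm_num)
  refine h.congr fun X => ?_
  rw [num_eq (Q := Qc) (Q' := Qc) (fun _ _ => Iff.rfl) X,
    num_eq (Q := fun _ => True) (Q' := fun _ => True) (fun _ _ => Iff.rfl) X]
  simp only [and_true]
  congr

end proof

/-- **The leading-term formula of Birch and Swinnerton-Dyer for the twists of `X_0(21)`: the predicted
order of `Ш` is the square of an integer, and the 2-part.** -/
theorem result :
    (∀ n : ℕ, Class n →
      (∃ φ : VariableChange ℚ, E n = φ • (⟨0, 2 * n, 0, -(63 * (n : ℚ) ^ 2), 0⟩ : WeierstrassCurve ℚ)) ∧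
      (∀ w : HeightOneSpectrum (𝓞 ℚ), MinimalAt (E n) w) ∧
      torsOrder (E n) = 4 ∧
      Tam (E n) = 4 ^ (n.primeFactors.card + 1) ∧
      (∃ F : ℂ → ℂ, IsLFun n F ∧
        ∃ y : ℤ, anOrder n (F 1) = (y : ℂ) ^ 2 ∧ (Odd y ↔ Criterion n)) ∧
      ((Finite (E n).toAffine.Point ∧ ∀ x : Sha (E n), x + x = 0 → x = 0) ↔ Criterion n) ∧
      (TwoPart n ↔ Criterion n)) ∧
    Tendsto (fun X : ℕ => (num TwoPart X : ℝ) / (num (fun _ => True) X : ℝ)) atTop (𝓝 eta) ∧
    0.2887 < eta ∧ eta < 0.2889 ∧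
    Tendsto (fun X : ℕ => (num (fun _ => True) X : ℝ) / X) atTop (𝓝 (21 / (64 * Real.pi ^ 2))) := by
  classical
  have key : ∀ n : ℕ, Class n → (TwoPart n ↔ Criterion n) := by
    intro n hn
    constructor
    · intro h
      exact (desc hn).1 ⟨h.1, h.2.1⟩
    · intro h
      obtain ⟨F, hF, y, hy, hodd⟩ := value hn
      have hyo := hodd.2 h
      have h1 := (desc hn).2 h
      refine ⟨h1.1, h1.2, F, hF, ?_, y, hyo, hy⟩
      intro h0
      rw [h0] at hy
      unfold anOrder at hy
      rw [zero_mul, zero_div] at hy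
      have hy0 : (y : ℂ) ≠ 0 := by
        intro h2
        have h3 : y = 0 := by exact_mod_cast h2
        rw [h3] at hyo
        exact absurd hyo (by decide)
      exact pow_ne_zero 2 hy0 hy.symm
  refine ⟨?_, ?_, ?_, ?_, lim_all⟩
  · intro n hn
    refine ⟨?_, ?_, ?_, ?_, value hn, ?_, key n hn⟩
    · rw [E_eq hn]
      obtain ⟨u0, e1, e2, e3, e4, e6⟩ := Run7.h89.P21.vr (k := ℚ) hn.mod
      refine ⟨⟨Units.mk0 2 two_ne_zero, -n, 1, 0⟩, ?_⟩
      apply WeierstrassCurve.ext
      · rw [variableChange_a₁]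
        simp only [Units.val_inv_eq_inv_val, Units.val_mk0]
        linear_combination (1 / 2 : ℚ) * e1
      · rw [variableChange_a₂]
        simp only [Units.val_inv_eq_inv_val, Units.val_mk0]
        linear_combination (1 / 4 : ℚ) * e2
      · rw [variableChange_a₃]
        simp only [Units.val_inv_eq_inv_val, Units.val_mk0]
        linear_combination (1 / 8 : ℚ) * e3
      · rw [variableChange_a₄]
        simp only [Units.val_inv_eq_inv_val, Units.val_mk0]
        linear_combination (1 / 16 : ℚ) * e4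
      · rw [variableChange_a₆]
        simp only [Units.val_inv_eq_inv_val, Units.val_mk0]
        linear_combination (1 / 64 : ℚ) * e6
    · rw [E_eq hn]
      exact fun w => Run7.h89.P21.minimal n hn w
    · rw [E_eq hn]
      exact Run7.h424.M21.s_tor n hn
    · rw [E_eq hn, pow_succ']
      exact Run7.h89.P21.tam_eq n hn
    · constructor
      · intro h
        exact (desc hn).1 ⟨h.1, sha_all h.2⟩
      · intro h
        have h1 := (desc hn).2 h
        exact ⟨h1.1, fun x hx => h1.2 1 x (by rw [pow_one, two_nsmul]; exact hx)⟩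
  · refine lim_Qc.congr fun X => ?_
    have h1 := num_eq (Q := TwoPart) (Q' := Pool.Agent.N969.P15.Qc)
      (fun n hn => by rw [key n hn, crit_iff hn]) X
    have h2 := num_eq (Q := Pool.Agent.N969.P15.Qc) (Q' := Pool.Agent.N969.P15.Qc)
      (fun _ _ => Iff.rfl) X
    rw [h1, h2]
  · exact Pool.Agent.N916.GB.eta_bounds.1
  · exact Pool.Agent.N916.GB.eta_bounds.2

end Pool.Agent.Results.MP_9c97e9_nt.TwistsX21TwoPart
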